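import Pool.Graph.R_pool_sql_team_seeded_63374d34.N784.CZ.Fin

/-!
# The orders at the centre of the L-functions of all the characters modulo `𝔮` of a given type
(helper440; the proof follows `N784.CZ.ell_core`)
-/

set_option autoImplicit false
set_option linter.unusedSectionVars false

open NumberField Complex Filter Topology MeasureTheory Set

namespace Pool.Agent.H440.CO

open Pool.Agent.Y773 (TPos LI zz)
open Pool.Agent.Y767 (Mq Mq_cop Mq_ne_bot Cls cls eq_of_LI)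
open Pool.Agent.Y773.IQ (tM ofM' ofM'_pos ofM'_supp cop_mono absNorm_pos' cop_one)
open Pool.Agent.N784.HC
open Pool.Agent.N784.CZ
open Pool.Agent.N784.AD (pi1 pi1_coe pi2 pi2_coe Un one_le_Un hK T1 T1_cop T1_one T1_tp)
open Pool.Agent.N833.CZ (norm_ofM'_le)
open Pool.Agent.R399.TW (pt pt_re pt_im pt_cont)

/-- **the orders at the centre over all the characters modulo `𝔮` of a given nonzero type: tail and
average** -/
theorem dn_center (K : Type) [Field K] [NumberField K]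
    {n : (K →+* ℂ) → ℕ} (hn : CTyp n) (hn0 : n ≠ 0) : ∃ c C : ℝ, 0 < c ∧ 1 ≤ C ∧
    ∀ (𝔮 : Ideal (𝓞 K)) (_ : 𝔮 ≠ ⊥) (htop : 𝔮 ≠ ⊤) (L : (Mq 𝔮 →* ℂˣ) → ℂ → ℂ),
      (∀ F ∈ Dn n htop, Differentiable ℂ (L F) ∧ ∀ s : ℂ, 1 < s.re → L F s = LI (ofM' htop F) s) →
      (∀ k : ℕ, (({F ∈ Dn n htop | k ≤ analyticOrderNatAt (L F) (1 / 2)}.ncard : ℕ) : ℝ) ≤
        C * (Nat.card (Cls (pi1 htop)) * Un 𝔮) * Real.exp (-(c * k))) ∧
      ∑ᶠ F ∈ Dn n htop, (analyticOrderNatAt (L F) (1 / 2) : ℝ) ≤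
        C * (Nat.card (Cls (pi1 htop)) * (1 + Real.log (Un 𝔮))) := by
  classical
  obtain ⟨c, C, hc, hC, H⟩ := cen_avg Pool.Agent.N644.CZ.t_pt Pool.Agent.N160.CZ.t_ord tt_lsp K hn
  obtain ⟨b2, t2⟩ := span_two K
  -- the characters of the fixed modulus
  have hex2 : ∀ F : Mq (Ideal.span {(2 : 𝓞 K)}) →* ℂˣ, ∃ L : ℂ → ℂ, Differentiable ℂ L ∧
      (F ∈ Dn n t2 → ∀ s : ℂ, 1 < s.re → L s = LI (ofM' t2 F) s) := by
    intro F
    by_cases h : F ∈ Dn n t2
    · obtain ⟨L, h1, h2⟩ := ent_of hn hn0 b2 t2 h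
      exact ⟨L, h1, fun _ => h2⟩
    · exact ⟨fun _ => 0, differentiable_const _, fun h' => absurd h' h⟩
  choose L2 hL2d hL2 using hex2
  obtain ⟨hfin2, -⟩ := Dn_card_le (n := n) b2 t2
  obtain ⟨B, hB⟩ : ∃ B : ℕ, ∀ F ∈ Dn n t2, analyticOrderNatAt (L2 F) (1 / 2) ≤ B := by
    refine ⟨hfin2.toFinset.sup fun F => analyticOrderNatAt (L2 F) (1 / 2), fun F hF => ?_⟩
    exact Finset.le_sup (f := fun F => analyticOrderNatAt (L2 F) (1 / 2))
      (by rwa [Set.Finite.mem_toFinset])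
  obtain ⟨C', hC'⟩ : ∃ C' : ℝ, C' = C + hK K * B + hK K * Real.exp (c * B) := ⟨_, rfl⟩
  have hh0 : (0 : ℝ) ≤ hK K := Nat.cast_nonneg _
  have hB0 : (0 : ℝ) ≤ B := Nat.cast_nonneg _
  have hCC' : C ≤ C' := by
    rw [hC']
    have h1 := Real.exp_pos (c * B)
    have h2 := mul_nonneg hh0 hB0
    have h3 := mul_nonneg hh0 h1.le
    linarith
  refine ⟨c, C', hc, by linarith, ?_⟩
  intro 𝔮 hbot htop L hL
  obtain ⟨hfin, -⟩ := Dn_card_le (n := n) hbot htop
  obtain ⟨hffin, -⟩ := FamN_finite (n := n) hbot htop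
  -- the L-functions of the primitive characters
  obtain ⟨A, hA, hP⟩ := primF K hn
  have hexP : ∀ ψ : Ideal (𝓞 K) →*₀ ℂ, ∃ G : ℂ → ℂ, (ψ ∈ FamN n 𝔮 → Differentiable ℂ G ∧
      ∀ s : ℂ, 1 < s.re → G s = LI ψ s) := by
    intro ψ
    by_cases h : ψ ∈ FamN n 𝔮
    · obtain ⟨𝔣, h1, h2, h3⟩ := h
      obtain ⟨-, G, g1, g2, -⟩ := hP 𝔣 ψ h2 h3
      exact ⟨G, fun _ => ⟨g1, g2⟩⟩
    · exact ⟨fun _ => 0, fun h' => absurd h' h⟩
  choose G hG using hexP
  have hord : ∀ ψ ∈ FamN n 𝔮, analyticOrderNatAt (L (tM 𝔮 ψ)) (1 / 2) =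
      analyticOrderNatAt (G ψ) (1 / 2) := by
    intro ψ hψ
    have h1 := hL (tM 𝔮 ψ) (tM_mem htop hψ)
    have h2 := hG ψ hψ
    have h3 : L (tM 𝔮 ψ) = fun s => G ψ s * EB 𝔮 ψ s :=
      eq_of_LI h1.1 (h2.1.mul (EB_diff hbot ψ)) (fun s hs => by
        rw [h1.2 s hs, h2.2 s hs]
        exact LI_ind hbot (FamN_norm_le hψ) (ind_pos htop hψ) (ind_zero htop ψ) hs)
    unfold analyticOrderNatAt
    rw [h3, order_EB hbot (FamN_norm_le hψ) h2.1 (by norm_num)]
  obtain ⟨J, hJ⟩ : ∃ J : Finset (Ideal (𝓞 K) →*₀ ℂ), J = hffin.toFinset := ⟨_, rfl⟩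
  have hJm : ∀ ψ, ψ ∈ J ↔ ψ ∈ FamN n 𝔮 := fun ψ => by rw [hJ, Set.Finite.mem_toFinset]
  obtain ⟨htail, havg⟩ := (H 𝔮 hbot htop J (fun ψ hψ => (hJm ψ).mp hψ) G
    (fun ψ hψ => hG ψ ((hJm ψ).mp hψ)) 0 (fun _ => {1 / 2}) (fun ψ _ x hx => by
      rw [Finset.mem_singleton] at hx
      have h1 : x - pt (1 / 2) 0 = 0 := by
        rw [hx]
        unfold pt
        push_cast
        ring
      rw [h1, norm_zero]
      have h2 : 0 ≤ Real.log (Ideal.absNorm 𝔮) := Real.log_natCast_nonneg _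
      positivity))
  simp only [Finset.sum_singleton, abs_zero, add_zero, Real.log_one, Real.one_rpow, mul_one]
    at havg htail
  have hUn : (1 : ℝ) ≤ (Un 𝔮 : ℝ) := by exact_mod_cast one_le_Un hbot
  have hlU : 0 ≤ Real.log (Un 𝔮) := Real.log_nonneg hUn
  have hcl1 : (1 : ℝ) ≤ Nat.card (Cls (pi1 htop)) := by
    have := (Pool.Agent.N784.AD.cls_card_le hbot htop).1
    exact_mod_cast Nat.card_pos
  -- the characters of conductor one
  have hD0fin : (Dn0 n 𝔮).Finite := hfin.subset (Dn0_sub htop)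
  have hD0card : (((Dn0 n 𝔮).ncard : ℕ) : ℝ) ≤ hK K := by
    exact_mod_cast Dn0_card (n := n) hbot htop
  have hD0 : ∀ F ∈ Dn0 n 𝔮, analyticOrderNatAt (L F) (1 / 2) ≤ B := by
    intro F hF
    obtain ⟨F'', h2, h3⟩ := dn0_red hbot htop hF
    have h4 := hL F (Dn0_sub htop hF)
    have h5 := h3 (L F) (L2 F'') h4.1 (hL2d F'') h4.2 (hL2 F'' h2) (1 / 2) (by norm_num)
    have h6 := hB F'' h2
    unfold analyticOrderNatAt at h6 ⊢
    rw [h5]
    exact h6
  constructor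
  · -- the tail
    intro k
    have hsub : {F ∈ Dn n htop | k ≤ analyticOrderNatAt (L F) (1 / 2)} ⊆
        (tM 𝔮) '' {ψ | ψ ∈ J.filter fun ψ => k ≤ analyticOrderNatAt (G ψ) (1 / 2)} ∪
        {F ∈ Dn0 n 𝔮 | k ≤ analyticOrderNatAt (L F) (1 / 2)} := by
      rintro F ⟨hF, hk⟩
      rcases dn_cases hbot htop hF with h | ⟨ψ, h2, h3⟩
      · exact Or.inr ⟨h, hk⟩
      · refine Or.inl ⟨ψ, ?_, h3⟩
        simp only [Finset.mem_filter, Set.mem_ofPred_eq]
        refine ⟨(hJm ψ).mpr h2, ?_⟩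
        rw [← hord ψ h2, h3]
        exact hk
    have hf1 : ((tM 𝔮) '' {ψ | ψ ∈ J.filter fun ψ =>
        k ≤ analyticOrderNatAt (G ψ) (1 / 2)}).Finite :=
      (Finset.finite_toSet _).image _
    have hf2 : {F ∈ Dn0 n 𝔮 | k ≤ analyticOrderNatAt (L F) (1 / 2)}.Finite :=
      hD0fin.subset fun F hF => hF.1
    have h1 := Set.ncard_le_ncard hsub (hf1.union hf2)
    have h2 : ((tM 𝔮) '' {ψ | ψ ∈ J.filter fun ψ =>
        k ≤ analyticOrderNatAt (G ψ) (1 / 2)}).ncard ≤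
        (J.filter fun ψ => k ≤ analyticOrderNatAt (G ψ) (1 / 2)).card := by
      refine (Set.ncard_image_le (Finset.finite_toSet _)).trans (le_of_eq ?_)
      exact Set.ncard_coe_finset _
    have h3 : (({F ∈ Dn0 n 𝔮 | k ≤ analyticOrderNatAt (L F) (1 / 2)}.ncard : ℕ) : ℝ) ≤
        hK K * Real.exp (c * B) * Real.exp (-(c * k)) := by
      by_cases hk : k ≤ B
      · have h4 := Set.ncard_le_ncard (fun F hF => hF.1 :
          {F ∈ Dn0 n 𝔮 | k ≤ analyticOrderNatAt (L F) (1 / 2)} ⊆ Dn0 n 𝔮) hD0fin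
        have h5 : (1 : ℝ) ≤ Real.exp (c * B) * Real.exp (-(c * k)) := by
          rw [← Real.exp_add]
          apply Real.one_le_exp
          have : (k : ℝ) ≤ B := by exact_mod_cast hk
          nlinarith
        have h6 : (({F ∈ Dn0 n 𝔮 | k ≤ analyticOrderNatAt (L F) (1 / 2)}.ncard : ℕ) : ℝ) ≤ hK K :=
          le_trans (by exact_mod_cast h4) hD0card
        rw [mul_assoc]
        exact h6.trans (le_mul_of_one_le_right hh0 h5)
      · have h4 : {F ∈ Dn0 n 𝔮 | k ≤ analyticOrderNatAt (L F) (1 / 2)} = ∅ := by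
          ext F
          simp only [Set.mem_ofPred_eq, Set.mem_empty_iff_false, iff_false, not_and]
          intro hF
          have := hD0 F hF
          omega
        rw [h4, Set.ncard_empty, Nat.cast_zero]
        positivity
    have h4 : (({F ∈ Dn n htop | k ≤ analyticOrderNatAt (L F) (1 / 2)}.ncard : ℕ) : ℝ) ≤
        C * (Nat.card (Cls (pi1 htop)) * Un 𝔮) * Real.exp (-(c * k)) +
        hK K * Real.exp (c * B) * Real.exp (-(c * k)) := by
      have h5 := h1.trans (Set.ncard_union_le _ _)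
      calc (({F ∈ Dn n htop | k ≤ analyticOrderNatAt (L F) (1 / 2)}.ncard : ℕ) : ℝ) ≤
          (((tM 𝔮) '' {ψ | ψ ∈ J.filter fun ψ =>
            k ≤ analyticOrderNatAt (G ψ) (1 / 2)}).ncard : ℝ) +
          (({F ∈ Dn0 n 𝔮 | k ≤ analyticOrderNatAt (L F) (1 / 2)}.ncard : ℕ) : ℝ) := by
            exact_mod_cast h5
        _ ≤ _ := add_le_add (le_trans (by exact_mod_cast h2) (htail k)) h3
    refine h4.trans ?_
    have h5 : (1 : ℝ) ≤ Nat.card (Cls (pi1 htop)) * Un 𝔮 :=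
      one_le_mul_of_one_le_of_one_le hcl1 hUn
    have h6 : (hK K : ℝ) * Real.exp (c * B) ≤ hK K * Real.exp (c * B) *
        (Nat.card (Cls (pi1 htop)) * Un 𝔮) := le_mul_of_one_le_right (by positivity) h5
    have h7 : 0 ≤ (hK K : ℝ) * B * (Nat.card (Cls (pi1 htop)) * Un 𝔮) := by positivity
    have h8 := Real.exp_pos (-(c * k))
    calc C * (Nat.card (Cls (pi1 htop)) * Un 𝔮) * Real.exp (-(c * k)) +
        hK K * Real.exp (c * B) * Real.exp (-(c * k)) =
        (C * (Nat.card (Cls (pi1 htop)) * Un 𝔮) + hK K * Real.exp (c * B)) *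
          Real.exp (-(c * k)) := by ring
      _ ≤ (C' * (Nat.card (Cls (pi1 htop)) * Un 𝔮)) * Real.exp (-(c * k)) := by
        refine mul_le_mul_of_nonneg_right ?_ h8.le
        rw [hC']
        nlinarith
      _ = _ := by ring
  · -- the average
    have hsplit : ∑ F ∈ hfin.toFinset, (analyticOrderNatAt (L F) (1 / 2) : ℝ) ≤
        ∑ F ∈ J.image (tM 𝔮), (analyticOrderNatAt (L F) (1 / 2) : ℝ) +
        ∑ F ∈ hD0fin.toFinset, (analyticOrderNatAt (L F) (1 / 2) : ℝ) := by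
      rw [← Finset.sum_union_inter]
      have h1 : hfin.toFinset ⊆ J.image (tM 𝔮) ∪ hD0fin.toFinset := by
        intro F hF
        rw [Set.Finite.mem_toFinset] at hF
        rw [Finset.mem_union]
        rcases dn_cases hbot htop hF with h | ⟨ψ, h2, h3⟩
        · right
          rwa [Set.Finite.mem_toFinset]
        · left
          rw [Finset.mem_image]
          exact ⟨ψ, (hJm ψ).mpr h2, h3⟩
      have h2 := Finset.sum_le_sum_of_subset_of_nonneg h1
        (f := fun F => (analyticOrderNatAt (L F) (1 / 2) : ℝ)) (fun _ _ _ => Nat.cast_nonneg _)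
      refine h2.trans (le_add_of_nonneg_right ?_)
      exact Finset.sum_nonneg fun _ _ => Nat.cast_nonneg _
    have hfirst : ∑ F ∈ J.image (tM 𝔮), (analyticOrderNatAt (L F) (1 / 2) : ℝ) ≤
        C * (Nat.card (Cls (pi1 htop)) * (1 + Real.log (Un 𝔮))) := by
      rw [Finset.sum_image (fun ψ hψ ψ' hψ' h => tM_inj hbot htop ((hJm ψ).mp hψ)
        ((hJm ψ').mp hψ') h)]
      refine le_trans (le_of_eq ?_) havg
      exact Finset.sum_congr rfl fun ψ hψ => by rw [hord ψ ((hJm ψ).mp hψ)]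
    have hsecond : ∑ F ∈ hD0fin.toFinset, (analyticOrderNatAt (L F) (1 / 2) : ℝ) ≤ hK K * B := by
      have h1 : ∀ F ∈ hD0fin.toFinset, (analyticOrderNatAt (L F) (1 / 2) : ℝ) ≤ B := by
        intro F hF
        rw [Set.Finite.mem_toFinset] at hF
        exact_mod_cast hD0 F hF
      refine (Finset.sum_le_sum h1).trans ?_
      rw [Finset.sum_const, nsmul_eq_mul]
      refine mul_le_mul_of_nonneg_right ?_ (Nat.cast_nonneg _)
      rw [Set.ncard_eq_toFinset_card _ hD0fin] at hD0card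
      exact hD0card
    rw [finsum_mem_eq_finite_toFinset_sum _ hfin]
    refine (hsplit.trans (add_le_add hfirst hsecond)).trans ?_
    have h8 : 1 ≤ (Nat.card (Cls (pi1 htop)) : ℝ) * (1 + Real.log (Un 𝔮)) :=
      one_le_mul_of_one_le_of_one_le hcl1 (by linarith)
    have h7 : (hK K * B : ℝ) ≤ hK K * B * (Nat.card (Cls (pi1 htop)) * (1 + Real.log (Un 𝔮))) :=
      le_mul_of_one_le_right (by positivity) h8
    have h9 : 0 ≤ (hK K : ℝ) * Real.exp (c * B) *
      (Nat.card (Cls (pi1 htop)) * (1 + Real.log (Un 𝔮))) := by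
      have := Real.exp_pos (c * B)
      positivity
    rw [hC']
    nlinarith

end Pool.Agent.H440.CO
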