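import Pool.Agent.H440.CO.Center
import Pool.Agent.H440.CM.Core

/-!
# The twists of a product of Hecke L-functions by the characters of a ray class group (helper440)
-/

set_option autoImplicit false
set_option linter.unusedSectionVars false

open NumberField IsDedekindDomain Complex Filter Topology Set

namespace Pool.Agent.H440.CO

open Pool.Agent.Y773 (TPos LI zz)
open Pool.Agent.Y767 (Mq Cls cls eq_of_LI)
open Pool.Agent.Y773.IQ (ofM' tM absNorm_pos')
open Pool.Agent.N784.HC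
open Pool.Agent.N784.CZ
open Pool.Agent.N784.AD (pi1 Un one_le_Un cls_card_le hK)
open Pool.Agent.N833.CZ (norm_ofM'_le hasProd_M)
open Pool.Agent.H440.CM (ev glue1)

/-- the bounds at the centre for one type -/
def CenB (K : Type) [Field K] [NumberField K] (n : (K →+* ℂ) → ℕ) (c C : ℝ) : Prop :=
  ∀ (𝔮 : Ideal (𝓞 K)) (_ : 𝔮 ≠ ⊥) (htop : 𝔮 ≠ ⊤) (L : (Mq 𝔮 →* ℂˣ) → ℂ → ℂ),
      (∀ F ∈ Dn n htop, Differentiable ℂ (L F) ∧ ∀ s : ℂ, 1 < s.re → L F s = LI (ofM' htop F) s) →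
      (∀ k : ℕ, (({F ∈ Dn n htop | k ≤ analyticOrderNatAt (L F) (1 / 2)}.ncard : ℕ) : ℝ) ≤
        C * (Nat.card (Cls (pi1 htop)) * Un 𝔮) * Real.exp (-(c * k))) ∧
      ∑ᶠ F ∈ Dn n htop, (analyticOrderNatAt (L F) (1 / 2) : ℝ) ≤
        C * (Nat.card (Cls (pi1 htop)) * (1 + Real.log (Un 𝔮)))

lemma CenB.mono {K : Type} [Field K] [NumberField K] {n : (K →+* ℂ) → ℕ} {c C c' C' : ℝ}
    (h : CenB K n c C) (hc : c' ≤ c) (hC : C ≤ C') (hC0 : 0 ≤ C) : CenB K n c' C' := by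
  intro 𝔮 hbot htop L hL
  obtain ⟨h1, h2⟩ := h 𝔮 hbot htop L hL
  have hUn : (1 : ℝ) ≤ (Un 𝔮 : ℝ) := by exact_mod_cast one_le_Un hbot
  have hlU : 0 ≤ Real.log (Un 𝔮) := Real.log_nonneg hUn
  constructor
  · intro k
    refine (h1 k).trans ?_
    have h3 : Real.exp (-(c * k)) ≤ Real.exp (-(c' * k)) := by
      apply Real.exp_le_exp.mpr
      have : (0 : ℝ) ≤ k := Nat.cast_nonneg _
      nlinarith
    have h4 : C * (Nat.card (Cls (pi1 htop)) * (Un 𝔮 : ℝ)) ≤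
        C' * (Nat.card (Cls (pi1 htop)) * (Un 𝔮 : ℝ)) :=
      mul_le_mul_of_nonneg_right hC (by positivity)
    exact mul_le_mul h4 h3 (Real.exp_pos _).le (by
      have : 0 ≤ C' := hC0.trans hC
      positivity)
  · refine h2.trans ?_
    exact mul_le_mul_of_nonneg_right hC (by positivity)

/-- the constants are uniform over the types of bounded exponents -/
theorem center_unif (K : Type) [Field K] [NumberField K] (i : ℕ) : ∃ c C : ℝ, 0 < c ∧ 1 ≤ C ∧
    ∀ n : (K →+* ℂ) → ℕ, CTyp n → n ≠ 0 → (∀ φ, n φ ≤ i) → CenB K n c C := by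
  classical
  have hfin : {n : (K →+* ℂ) → ℕ | ∀ φ, n φ ≤ i}.Finite := by
    have h1 := Set.Finite.pi' (ι := K →+* ℂ) (fun _ => Set.finite_Iic i)
    refine h1.subset fun n hn => ?_
    exact hn
  have key : ∀ S : Set ((K →+* ℂ) → ℕ), S.Finite → ∃ c C : ℝ, 0 < c ∧ 1 ≤ C ∧
      ∀ n ∈ S, CTyp n → n ≠ 0 → CenB K n c C := by
    intro S hS
    induction S, hS using Set.Finite.induction_on with
    | empty => exact ⟨1, 1, one_pos, le_refl _, fun n hn => absurd hn (Set.notMem_empty n)⟩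
    | @insert n₀ S' _ _ ih =>
      obtain ⟨c, C, hc, hC, H⟩ := ih
      by_cases h0 : CTyp n₀ ∧ n₀ ≠ 0
      · obtain ⟨c₁, C₁, hc₁, hC₁, H₁⟩ := dn_center K h0.1 h0.2
        refine ⟨min c c₁, max C C₁, lt_min hc hc₁, hC.trans (le_max_left _ _), ?_⟩
        intro n hn hct hn0
        rcases Set.mem_insert_iff.mp hn with rfl | h
        · exact CenB.mono (c := c₁) (C := C₁) H₁ (min_le_right _ _) (le_max_right _ _)
            (by linarith)
        · exact (H n h hct hn0).mono (min_le_left _ _) (le_max_left _ _) (by linarith)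
      · refine ⟨c, C, hc, hC, ?_⟩
        intro n hn hct hn0
        rcases Set.mem_insert_iff.mp hn with rfl | h
        · exact absurd ⟨hct, hn0⟩ h0
        · exact H n h hct hn0
  obtain ⟨c, C, hc, hC, H⟩ := key _ hfin
  exact ⟨c, C, hc, hC, fun n h1 h2 h3 => H n h3 h1 h2⟩

/-- the characters of a given type are a coset of the characters of the ray class group -/
lemma bijOn_mul {K : Type} [Field K] [NumberField K] {n : (K →+* ℂ) → ℕ} {𝔮 : Ideal (𝓞 K)}
    {htop : 𝔮 ≠ ⊤} {F : Mq 𝔮 →* ℂˣ} (hF : F ∈ Dn n htop) :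
    Set.BijOn (fun η : Mq 𝔮 →* ℂˣ => η * F) (Dn 0 htop) (Dn n htop) := by
  have h0 : ∀ x, phT 0 htop x = 1 := by
    intro x
    ext
    rw [phT_coe, ph_zero_type]
    rfl
  refine ⟨?_, ?_, ?_⟩
  · intro η hη x
    change η (pi1 htop x) * F (pi1 htop x) = _
    rw [hη x, hF x, h0, one_mul]
  · intro η _ η' _ h
    exact mul_right_cancel h
  · intro F' hF'
    refine ⟨F' * F⁻¹, ?_, ?_⟩
    · intro x
      change F' (pi1 htop x) * (F (pi1 htop x))⁻¹ = _
      rw [hF' x, hF x, h0, mul_inv_cancel]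
    · refine MonoidHom.ext fun x => ?_
      change F' x * (F x)⁻¹ * F x = F' x
      rw [inv_mul_cancel_right]

lemma natOrder_prod {ι : Type*} (S : Finset ι) (f : ι → ℂ → ℂ) (z : ℂ)
    (h : ∀ i ∈ S, AnalyticAt ℂ (f i) z) (h' : ∀ i ∈ S, analyticOrderAt (f i) z ≠ ⊤) :
    analyticOrderNatAt (fun s => ∏ i ∈ S, f i s) z = ∑ i ∈ S, analyticOrderNatAt (f i) z := by
  have h1 := order_prod S f z h
  have h2 : (∑ i ∈ S, analyticOrderAt (f i) z) =
      ((∑ i ∈ S, analyticOrderNatAt (f i) z : ℕ) : ℕ∞) := by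
    rw [Nat.cast_sum]
    exact Finset.sum_congr rfl fun i hi => (Nat.cast_analyticOrderNatAt (h' i hi)).symm
  rw [h2] at h1
  unfold analyticOrderNatAt at h1 ⊢
  rw [h1, ENat.toNat_natCast]

/-- **the twists of a product of Hecke L-functions by the characters of the ray class group** -/
theorem twist_core (M : Type) [Field M] [NumberField M] (i : ℕ) : ∃ c C : ℝ, 0 < c ∧ 1 ≤ C ∧
    ∀ (N : ℕ) (n : Fin N → (M →+* ℂ) → ℕ), (∀ j, CTyp (n j)) → (∀ j, n j ≠ 0) →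
      (∀ j φ, n j φ ≤ i) → ∀ (𝔮 : Ideal (𝓞 M)), 𝔮 ≠ ⊥ → ∀ htop : 𝔮 ≠ ⊤,
    ∀ F₁ : Fin N → (Mq 𝔮 →* ℂˣ), (∀ j, F₁ j ∈ Dn (n j) htop) →
    ∃ Λ : (Mq 𝔮 →* ℂˣ) → ℂ → ℂ,
      (∀ η ∈ Dn 0 htop, Differentiable ℂ (Λ η) ∧ (∀ s : ℂ, 1 ≤ s.re → Λ η s ≠ 0) ∧
        ∀ s : ℂ, 1 < s.re → HasProd (fun 𝔭 : {𝔭 : Ideal (𝓞 M) // Prime 𝔭} =>
          ∏ j, (1 - zz (ofM' htop (η * F₁ j)) s 𝔭)⁻¹) (Λ η s)) ∧
      (∀ k : ℕ, 1 ≤ k →
        (({η ∈ Dn 0 htop | k ≤ analyticOrderNatAt (Λ η) (1 / 2)}.ncard : ℕ) : ℝ) ≤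
        C * (N * (Nat.card (Cls (pi1 htop)) * Un 𝔮)) * Real.exp (-(c * (k / N)))) ∧
      ∑ᶠ η ∈ Dn 0 htop, (analyticOrderNatAt (Λ η) (1 / 2) : ℝ) ≤
        C * (N * (Nat.card (Cls (pi1 htop)) * (1 + Real.log (Un 𝔮)))) ∧
      ∀ (K : Type) [Field K] [NumberField K] (ι : 𝓞 M →+* 𝓞 K)
        (art : Ideal (𝓞 M) → (𝓞 K ≃+* 𝓞 K)), IsRCF 𝔮 K ι art →
      ∃ G : ℂ → ℂ, Differentiable ℂ G ∧ (∀ s : ℂ, 1 ≤ s.re → G s ≠ 0) ∧
        (∀ z, analyticOrderNatAt G z = ∑ᶠ η ∈ Dn 0 htop, analyticOrderNatAt (Λ η) z) ∧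
        ∀ s : ℂ, 1 < s.re → HasProd (fun v : HeightOneSpectrum (𝓞 K) =>
          ∏ j, (1 - ev ι htop (F₁ j) v * ((Ideal.absNorm v.asIdeal : ℕ) : ℂ) ^ (-s))⁻¹)
          (G s) := by
  classical
  obtain ⟨c, C, hc, hC, H⟩ := center_unif M i
  refine ⟨c, C, hc, hC, ?_⟩
  intro N n hn hn0 hni 𝔮 hbot htop F₁ hF₁
  have hfin : ∀ j, (Dn (n j) htop).Finite := fun j => (Dn_card_le (n := n j) hbot htop).1
  have hfin0 : (Dn (0 : (M →+* ℂ) → ℕ) htop).Finite := (Dn_card_le (n := 0) hbot htop).1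
  have hex : ∀ (j : Fin N) (F : Mq 𝔮 →* ℂˣ), ∃ L : ℂ → ℂ, F ∈ Dn (n j) htop →
      (Differentiable ℂ L ∧ ∀ s : ℂ, 1 < s.re → L s = LI (ofM' htop F) s) := by
    intro j F
    by_cases h : F ∈ Dn (n j) htop
    · obtain ⟨L, h1, h2⟩ := ent_of (hn j) (hn0 j) hbot htop h
      exact ⟨L, fun _ => ⟨h1, h2⟩⟩
    · exact ⟨fun _ => 0, fun h' => absurd h' h⟩
  choose L hL using hex
  have hmem : ∀ j, ∀ η ∈ Dn (0 : (M →+* ℂ) → ℕ) htop, η * F₁ j ∈ Dn (n j) htop := fun j η hη =>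
    (bijOn_mul (hF₁ j)).mapsTo hη
  obtain ⟨Λ, hΛ⟩ : ∃ Λ : (Mq 𝔮 →* ℂˣ) → ℂ → ℂ, Λ = fun η s => ∏ j, L j (η * F₁ j) s := ⟨_, rfl⟩
  have hLne : ∀ j, ∀ F ∈ Dn (n j) htop, ∀ s : ℂ, 1 ≤ s.re → L j F s ≠ 0 := by
    intro j F hF s hs
    exact nv_Dn (hn j) (hn0 j) hbot htop hF (hL j F hF).1 (hL j F hF).2 hs
  have hLo : ∀ j, ∀ F ∈ Dn (n j) htop, ∀ z : ℂ, analyticOrderAt (L j F) z ≠ ⊤ := by
    intro j F hF z
    exact order_ne_top (hL j F hF).1 (hLne j F hF 2 (by norm_num)) z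
  have hΛd : ∀ η ∈ Dn (0 : (M →+* ℂ) → ℕ) htop, Differentiable ℂ (Λ η) := by
    intro η hη
    rw [hΛ]
    exact Differentiable.fun_finsetProd fun j _ => (hL j _ (hmem j η hη)).1
  have hΛne : ∀ η ∈ Dn (0 : (M →+* ℂ) → ℕ) htop, ∀ s : ℂ, 1 ≤ s.re → Λ η s ≠ 0 := by
    intro η hη s hs
    rw [hΛ]
    simp only
    rw [Finset.prod_ne_zero_iff]
    intro j _
    exact hLne j _ (hmem j η hη) s hs
  have hΛo : ∀ η ∈ Dn (0 : (M →+* ℂ) → ℕ) htop, ∀ z : ℂ,
      analyticOrderNatAt (Λ η) z = ∑ j, analyticOrderNatAt (L j (η * F₁ j)) z := by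
    intro η hη z
    rw [hΛ]
    exact natOrder_prod Finset.univ (fun j => L j (η * F₁ j)) z
      (fun j _ => (hL j _ (hmem j η hη)).1.analyticAt z) (fun j _ => hLo j _ (hmem j η hη) z)
  have hB := fun j => H (n j) (hn j) (hn0 j) (hni j) 𝔮 hbot htop (L j) (hL j)
  refine ⟨Λ, ?_, ?_, ?_, ?_⟩
  · intro η hη
    refine ⟨hΛd η hη, hΛne η hη, fun s hs => ?_⟩
    rw [hΛ]
    refine hasProd_prod fun j _ => ?_
    rw [(hL j _ (hmem j η hη)).2 s hs]
    exact hasProd_M (norm_ofM'_le hbot htop (hmem j η hη)) hs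
  · -- the tail
    intro k hk
    obtain ⟨D, hD⟩ : ∃ D : Finset (Mq 𝔮 →* ℂˣ), D = hfin0.toFinset := ⟨_, rfl⟩
    have hDm : ∀ η, η ∈ D ↔ η ∈ Dn (0 : (M →+* ℂ) → ℕ) htop := fun η => by
      rw [hD, Set.Finite.mem_toFinset]
    have h1 : {η ∈ Dn (0 : (M →+* ℂ) → ℕ) htop | k ≤ analyticOrderNatAt (Λ η) (1 / 2)} =
        ((D.filter fun η => k ≤ analyticOrderNatAt (Λ η) (1 / 2) : Finset _) : Set _) := by
      ext η
      simp [hDm]
    rw [h1, Set.ncard_coe_finset]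
    rcases Nat.eq_zero_or_pos N with hN | hN
    · subst hN
      have h2 : (D.filter fun η => k ≤ analyticOrderNatAt (Λ η) (1 / 2)) = ∅ := by
        rw [Finset.filter_eq_empty_iff]
        intro η hη
        rw [hΛo η ((hDm η).mp hη), Finset.univ_eq_empty, Finset.sum_empty]
        omega
      rw [h2]
      simp
    · have hNr : (0 : ℝ) < N := by exact_mod_cast hN
      obtain ⟨m, hm⟩ : ∃ m : ℕ, m = ⌈(k : ℝ) / N⌉₊ := ⟨_, rfl⟩
      have hkm : (k : ℝ) / N ≤ m := by rw [hm]; exact Nat.le_ceil _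
      have h2 : (D.filter fun η => k ≤ analyticOrderNatAt (Λ η) (1 / 2)) ⊆
          Finset.univ.biUnion fun j : Fin N =>
            D.filter fun η => m ≤ analyticOrderNatAt (L j (η * F₁ j)) (1 / 2) := by
        intro η hη
        rw [Finset.mem_filter] at hη
        rw [Finset.mem_biUnion]
        by_contra hcon
        push Not at hcon
        have h3 : ∀ j : Fin N, (analyticOrderNatAt (L j (η * F₁ j)) (1 / 2) : ℝ) <
            (k : ℝ) / N := by
          intro j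
          have h4 := hcon j (Finset.mem_univ j)
          rw [Finset.mem_filter, not_and, not_le] at h4
          have h5 := h4 hη.1
          rw [hm, Nat.lt_ceil] at h5
          exact h5
        have h4 : (analyticOrderNatAt (Λ η) (1 / 2) : ℝ) < k := by
          rw [hΛo η ((hDm η).mp hη.1), Nat.cast_sum]
          have hne : (Finset.univ : Finset (Fin N)).Nonempty := by
            rw [Finset.univ_nonempty_iff]
            exact ⟨⟨0, hN⟩⟩
          calc ∑ j : Fin N, (analyticOrderNatAt (L j (η * F₁ j)) (1 / 2) : ℝ) <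
              ∑ _j : Fin N, (k : ℝ) / N := Finset.sum_lt_sum_of_nonempty hne fun j _ => h3 j
            _ = k := by
              rw [Finset.sum_const, Finset.card_univ, Fintype.card_fin, nsmul_eq_mul]
              field_simp
        have h5 : (k : ℝ) ≤ analyticOrderNatAt (Λ η) (1 / 2) := by exact_mod_cast hη.2
        linarith
      have h3 : ∀ j : Fin N, (((D.filter fun η =>
          m ≤ analyticOrderNatAt (L j (η * F₁ j)) (1 / 2)).card : ℕ) : ℝ) ≤
          C * (Nat.card (Cls (pi1 htop)) * Un 𝔮) * Real.exp (-(c * (k / N))) := by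
        intro j
        have h4 := (hB j).1 m
        have h5 : (D.filter fun η => m ≤ analyticOrderNatAt (L j (η * F₁ j)) (1 / 2)).card ≤
            {F ∈ Dn (n j) htop | m ≤ analyticOrderNatAt (L j F) (1 / 2)}.ncard := by
          rw [← Set.ncard_coe_finset]
          refine Set.ncard_le_ncard_of_injOn (fun η => η * F₁ j) ?_ ?_ ?_
          · intro η hη
            rw [Finset.mem_coe, Finset.mem_filter] at hη
            exact ⟨hmem j η ((hDm η).mp hη.1), hη.2⟩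
          · intro η _ η' _ h
            exact mul_right_cancel h
          · exact (hfin j).subset fun F hF => hF.1
        have h6 : Real.exp (-(c * m)) ≤ Real.exp (-(c * (k / N))) := by
          apply Real.exp_le_exp.mpr
          nlinarith
        calc (((D.filter fun η =>
          m ≤ analyticOrderNatAt (L j (η * F₁ j)) (1 / 2)).card : ℕ) : ℝ) ≤
            ({F ∈ Dn (n j) htop | m ≤ analyticOrderNatAt (L j F) (1 / 2)}.ncard : ℝ) := by
              exact_mod_cast h5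
          _ ≤ C * (Nat.card (Cls (pi1 htop)) * Un 𝔮) * Real.exp (-(c * m)) := h4
          _ ≤ _ := mul_le_mul_of_nonneg_left h6 (by positivity)
      have h4 := (Finset.card_le_card h2).trans Finset.card_biUnion_le
      calc (((D.filter fun η => k ≤ analyticOrderNatAt (Λ η) (1 / 2)).card : ℕ) : ℝ) ≤
          ∑ j : Fin N, (((D.filter fun η =>
          m ≤ analyticOrderNatAt (L j (η * F₁ j)) (1 / 2)).card : ℕ) : ℝ) := by exact_mod_cast h4
        _ ≤ ∑ _j : Fin N, C * (Nat.card (Cls (pi1 htop)) * Un 𝔮) * Real.exp (-(c * (k / N))) :=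
          Finset.sum_le_sum fun j _ => h3 j
        _ = _ := by
          rw [Finset.sum_const, Finset.card_univ, Fintype.card_fin, nsmul_eq_mul]
          ring
  · -- the average
    have h1 : ∑ᶠ η ∈ Dn (0 : (M →+* ℂ) → ℕ) htop, (analyticOrderNatAt (Λ η) (1 / 2) : ℝ) =
        ∑ᶠ η ∈ Dn (0 : (M →+* ℂ) → ℕ) htop,
          ∑ j : Fin N, (analyticOrderNatAt (L j (η * F₁ j)) (1 / 2) : ℝ) :=
      finsum_mem_congr rfl fun η hη => by rw [hΛo η hη, Nat.cast_sum]
    rw [h1, finsum_mem_eq_finite_toFinset_sum _ hfin0, Finset.sum_comm]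
    have h2 : ∀ j : Fin N, ∑ η ∈ hfin0.toFinset,
        (analyticOrderNatAt (L j (η * F₁ j)) (1 / 2) : ℝ) ≤
        C * (Nat.card (Cls (pi1 htop)) * (1 + Real.log (Un 𝔮))) := by
      intro j
      rw [← finsum_mem_eq_finite_toFinset_sum _ hfin0]
      rw [finsum_mem_eq_of_bijOn (fun η => η * F₁ j) (bijOn_mul (hF₁ j))
        (g := fun F => (analyticOrderNatAt (L j F) (1 / 2) : ℝ)) (fun η _ => rfl)]
      exact (hB j).2
    refine (Finset.sum_le_sum fun j _ => h2 j).trans (le_of_eq ?_)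
    rw [Finset.sum_const, Finset.card_univ, Fintype.card_fin, nsmul_eq_mul]
    ring
  · -- the ray class field
    intro K _ _ ι art hK
    obtain ⟨G, hG⟩ : ∃ G : ℂ → ℂ, G = fun s => ∏ η ∈ hfin0.toFinset, Λ η s := ⟨_, rfl⟩
    have hm0 : ∀ η, η ∈ hfin0.toFinset ↔ η ∈ Dn (0 : (M →+* ℂ) → ℕ) htop := fun η => by
      rw [Set.Finite.mem_toFinset]
    refine ⟨G, ?_, ?_, ?_, ?_⟩
    · rw [hG]
      exact Differentiable.fun_finsetProd fun η hη => hΛd η ((hm0 η).mp hη)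
    · intro s hs
      rw [hG]
      simp only
      rw [Finset.prod_ne_zero_iff]
      intro η hη
      exact hΛne η ((hm0 η).mp hη) s hs
    · intro z
      rw [hG, natOrder_prod _ _ _ (fun η hη => (hΛd η ((hm0 η).mp hη)).analyticAt z)
        (fun η hη => order_ne_top (hΛd η ((hm0 η).mp hη))
          (hΛne η ((hm0 η).mp hη) 2 (by norm_num)) z), finsum_mem_eq_finite_toFinset_sum _ hfin0]
    · intro s hs
      have h1 : G s = ∏ j : Fin N, ∏ᶠ F ∈ Dn (n j) htop, LI (ofM' htop F) s := by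
        rw [hG, hΛ]
        simp only
        rw [Finset.prod_comm]
        refine Finset.prod_congr rfl fun j _ => ?_
        rw [← finprod_mem_eq_finite_toFinset_prod _ hfin0]
        refine finprod_mem_eq_of_bijOn (fun η => η * F₁ j) (bijOn_mul (hF₁ j)) ?_
        intro η hη
        exact (hL j _ (hmem j η hη)).2 s hs
      rw [h1]
      exact hasProd_prod fun j _ => glue1 ι hbot htop art hK (hF₁ j) hs

end Pool.Agent.H440.CO
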